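import Pool.Agent.N343.LT.Stm2
import Pool.Agent.Y819.ZF.Cls

/-!
# Project LT (helper343), LT16 (helper803): list colourings of covers, from the coefficient of the base
-/

set_option autoImplicit false

namespace Pool.Agent.N803.LT.HLD

open Finset Pool.Agent.Y819.ZF Pool.Agent.Helper929 Pool.Agent.H604R2.LEC Pool.Agent.N343.LT
  Pool.Agent.N343.LT.Defs Pool.Agent.W426.LE.EL

theorem of_EL {V : Type} (G : SimpleGraph V) (d : ℕ) (h : EL G d)
    (hd : ¬ G.lineGraph.Colorable (d - 1)) : ListEdgeConjectureFor G := fun k => lec G d h hd k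

theorem sub_of_EL {V : Type} (H : SimpleGraph V) (d : ℕ) (h : EL H d) : SubgraphsToo H d :=
  fun _ G φ hφ hadj hd => of_EL G d (mono G H φ hφ hadj d h) hd

theorem not_col {V : Type} [Finite V] (G : SimpleGraph V) (d : ℕ) (hd : 1 ≤ d) (v : V)
    (hv : (G.neighborSet v).ncard = d) : ¬ G.lineGraph.Colorable (d - 1) := by
  classical
  have := Fintype.ofFinite V
  refine deg G d hd v ?_
  rw [← SimpleGraph.card_neighborSet_eq_degree, ← Nat.card_eq_fintype_card, Nat.card_coe_set_eq, hv]

theorem main (hGC : S_GC) : S_HLD := by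
  classical
  intro p d hp n V G e hreg hcc hedge
  have hfin : Finite V := Finite.of_equiv _ e.symm
  obtain ⟨u₀, v₀, huv⟩ := hedge
  have hd : 1 ≤ d := by
    rw [← hreg u₀, Nat.one_le_iff_ne_zero]
    intro h0
    rw [Set.ncard_eq_zero (Set.toFinite _)] at h0
    exact Set.notMem_empty v₀ (h0 ▸ (show v₀ ∈ G.neighborSet u₀ from huv))
  have hdeg : ∀ v : Fin n, (univ.filter fun w => (G.comap e.symm).Adj v w).card = d := by
    intro v
    rw [← hreg (e.symm v), ← Set.ncard_coe_finset]
    have e1 : G.neighborSet (e.symm v) =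
        e.symm '' ((univ.filter fun w => (G.comap e.symm).Adj v w : Finset (Fin n)) : Set (Fin n)) := by
      ext w
      constructor
      · intro hw
        refine ⟨e w, ?_, by simp⟩
        rw [Finset.mem_coe, mem_filter]
        refine ⟨mem_univ _, ?_⟩
        show G.Adj (e.symm v) (e.symm (e w))
        rw [Equiv.symm_apply_apply]
        exact hw
      · rintro ⟨x, hx, rfl⟩
        rw [Finset.mem_coe, mem_filter] at hx
        exact hx.2
    rw [e1, Set.ncard_image_of_injective _ e.symm.injective]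
  -- the covers
  have hEL : ∀ (P : Type) [Group P] [Finite P], IsPGroup p P → ∀ (β : V → V → P)
      (hβ : ∀ u v, β v u = (β u v)⁻¹), EL (Cover G β hβ) d := by
    intro P _ _ hP β hβ
    have := Fintype.ofFinite P
    have h1 := hGC p n d (G.comap e.symm) hdeg hcc P hP (fun u v => β (e.symm u) (e.symm v))
      (fun u v => hβ _ _)
    refine mono (Cover G β hβ) _ (fun x => (e x.1, x.2)) ?_ ?_ d h1
    · intro x y hxy
      have h2 := Prod.mk.inj hxy
      exact Prod.ext (e.injective h2.1) h2.2
    · rintro x y ⟨h2, h3⟩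
      refine ⟨?_, ?_⟩
      · show G.Adj (e.symm (e x.1)) (e.symm (e y.1))
        rwa [Equiv.symm_apply_apply, Equiv.symm_apply_apply]
      · show y.2 = x.2 * β (e.symm (e x.1)) (e.symm (e y.1))
        rwa [Equiv.symm_apply_apply, Equiv.symm_apply_apply]
  have hELG : EL G d := by
    have hP : IsPGroup p (Multiplicative (ZMod 1)) := by
      intro g
      exact ⟨0, by simpa using Subsingleton.elim g 1⟩
    have hβ : ∀ u v : V, (fun _ _ => 1 : V → V → Multiplicative (ZMod 1)) v u =
        ((fun _ _ => 1 : V → V → Multiplicative (ZMod 1)) u v)⁻¹ := by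
      intro u v
      simp
    have h1 := hEL (Multiplicative (ZMod 1)) hP (fun _ _ => 1) hβ
    refine mono G _ (fun v => (v, 1)) ?_ ?_ d h1
    · intro u v huv
      exact (Prod.mk.inj huv).1
    · intro u v huv
      refine ⟨huv, ?_⟩
      simp
  refine ⟨of_EL G d hELG (not_col G d hd u₀ (hreg u₀)), sub_of_EL G d hELG, ?_⟩
  intro P _ _ hP β hβ
  refine ⟨of_EL _ d (hEL P hP β hβ) ?_, sub_of_EL _ d (hEL P hP β hβ)⟩
  refine not_col _ d hd (u₀, 1) ?_
  have h2 := Pool.Agent.Y819.ZF.Cls.cover_reg G β hβ (u₀, 1)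
  rw [← hreg u₀]
  exact h2

end Pool.Agent.N803.LT.HLD
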